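import Pool.Agent.Helper15.RA.GoalsH

/-!
# Packet RA-I1: the basis `C_w` of the Hecke algebra of a graph product
-/

set_option autoImplicit false

open LaurentPolynomial

noncomputable section

namespace Pool.Agent.Helper99.RA

open Pool.Agent.Helper15.RA

/-! ## Unitriangular families -/

section tri

variable {R W H : Type*} [CommRing R] [AddCommGroup H] [Module R H]

theorem tri_sub_mem (t : Module.Basis W R H) (l : W → ℕ) {w : W} {Z : H}
    (h1 : t.repr Z w = 1) (h2 : ∀ y, t.repr Z y ≠ 0 → y = w ∨ l y < l w) :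
    Z - t w ∈ Submodule.span R (t '' {y | l y < l w}) := by
  classical
  rw [Module.Basis.mem_span_image]
  intro y hy
  have hy' : t.repr (Z - t w) y ≠ 0 := Finsupp.mem_support_iff.1 hy
  rw [map_sub, Finsupp.sub_apply, Module.Basis.repr_self] at hy'
  by_cases hyw : y = w
  · subst hyw
    rw [h1, Finsupp.single_eq_same, sub_self] at hy'
    exact absurd rfl hy'
  · rw [Finsupp.single_apply, if_neg (fun h => hyw h.symm), sub_zero] at hy'
    exact (h2 y hy').resolve_left hyw

theorem tri_of_sub_mem (t : Module.Basis W R H) (l : W → ℕ) {w : W} {Z : H}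
    (h : Z - t w ∈ Submodule.span R (t '' {y | l y < l w})) :
    t.repr Z w = 1 ∧ ∀ y, t.repr Z y ≠ 0 → y = w ∨ l y < l w := by
  classical
  rw [Module.Basis.mem_span_image] at h
  have h1 : ∀ y, ¬ l y < l w → t.repr (Z - t w) y = 0 := by
    intro y hy
    by_contra h2
    exact hy (h (Finsupp.mem_support_iff.2 h2))
  have h3 : ∀ y, t.repr (Z - t w) y = t.repr Z y - (Finsupp.single w 1 : W →₀ R) y := by
    intro y
    rw [map_sub, Finsupp.sub_apply, Module.Basis.repr_self]
  constructor
  · have h4 := h1 w (lt_irrefl _)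
    rw [h3, Finsupp.single_eq_same, sub_eq_zero] at h4
    exact h4
  · intro y hy
    by_contra h5
    push Not at h5
    have h4 := h1 y (not_lt.2 h5.2)
    rw [h3, Finsupp.single_apply, if_neg (fun h => h5.1 h.symm), sub_zero] at h4
    exact hy h4

/-- a unitriangular family is a basis, and the inverse is unitriangular -/
theorem tri_basis (t : Module.Basis W R H) (l : W → ℕ) (C : W → H)
    (h1 : ∀ w, t.repr (C w) w = 1) (h2 : ∀ w y, t.repr (C w) y ≠ 0 → y = w ∨ l y < l w) :
    ∃ b : Module.Basis W R H, (∀ w, b w = C w) ∧ (∀ w, b.repr (t w) w = 1) ∧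
      ∀ w y, b.repr (t w) y ≠ 0 → y = w ∨ l y < l w := by
  classical
  have hli : LinearIndependent R C := by
    rw [linearIndependent_iff]
    intro f hf
    by_contra hne
    obtain ⟨w, hw, hmax⟩ := Finset.exists_max_image f.support l
      (Finsupp.support_nonempty_iff.2 hne)
    have h3 : t.repr (Finsupp.linearCombination R C f) w = f w := by
      rw [Finsupp.linearCombination_apply, Finsupp.sum, map_sum, Finsupp.finsetSum_apply,
        Finset.sum_eq_single w]
      · rw [map_smul, Finsupp.smul_apply, h1, smul_eq_mul, mul_one]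
      · intro y hy hyw
        rw [map_smul, Finsupp.smul_apply, smul_eq_mul]
        by_cases h4 : t.repr (C y) w = 0
        · rw [h4, mul_zero]
        · rcases h2 y w h4 with h5 | h5
          · exact absurd h5.symm hyw
          · exact absurd (hmax y hy) (not_le.2 h5)
      · intro h
        exact absurd hw h
    rw [hf, map_zero, Finsupp.zero_apply] at h3
    exact Finsupp.mem_support_iff.1 hw h3.symm
  have hmem : ∀ n : ℕ, ∀ w, l w < n → t w - C w ∈ Submodule.span R (C '' {y | l y < l w}) := by
    intro n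
    induction n with
    | zero => intro w hw; omega
    | succ n ih =>
      intro w hw
      have h3 := tri_sub_mem t l (h1 w) (h2 w)
      have h4 : Submodule.span R (t '' {y | l y < l w}) ≤
          Submodule.span R (C '' {y | l y < l w}) := by
        rw [Submodule.span_le]
        rintro _ ⟨y, hy, rfl⟩
        have hy' : l y < l w := hy
        have h5 := ih y (by omega)
        have h6 : t y = C y + (t y - C y) := by abel
        rw [SetLike.mem_coe, h6]
        refine add_mem (Submodule.subset_span ⟨y, hy, rfl⟩) ?_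
        refine Submodule.span_mono (Set.image_mono ?_) h5
        intro z hz
        exact lt_trans (show l z < l y from hz) hy'
      have h7 : t w - C w = -(C w - t w) := by abel
      rw [h7]
      exact neg_mem (h4 h3)
  have hspan : ⊤ ≤ Submodule.span R (Set.range C) := by
    rw [← t.span_eq, Submodule.span_le]
    rintro _ ⟨w, rfl⟩
    have h6 : t w = C w + (t w - C w) := by abel
    rw [SetLike.mem_coe, h6]
    refine add_mem (Submodule.subset_span ⟨w, rfl⟩) ?_
    exact Submodule.span_mono (Set.image_subset_range _ _) (hmem (l w + 1) w (by omega))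
  set b : Module.Basis W R H := Module.Basis.mk hli hspan with hb
  have hbw : ∀ w, b w = C w := fun w => Module.Basis.mk_apply hli hspan w
  have hbC : (b : W → H) = C := funext hbw
  refine ⟨b, hbw, ?_⟩
  have h8 : ∀ w, t w - b w ∈ Submodule.span R (b '' {y | l y < l w}) := by
    intro w
    rw [hbC]
    exact hmem (l w + 1) w (by omega)
  exact ⟨fun w => (tri_of_sub_mem b l (h8 w)).1, fun w => (tri_of_sub_mem b l (h8 w)).2⟩

end tri

theorem h_i1 (h1 : H_1) (h2 : H_2) (hC : E_C) (hE : E_1) : I_1 := by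
  intro I W V H _ _ _ X
  obtain ⟨-, -, -, -, -, hsupp, -, -⟩ := h1 I W H X.M X.cs X.L X.D.toHecke0
  obtain ⟨-, -, -, hc1, hc2, -, -, hcone, -, -⟩ := h2 I W H X.M X.cs X.L X.wt X.D
  obtain ⟨hCg, hCm⟩ := hC V W X.Γ X.G X.sl X.gp H X.D.c X.C X.C_one X.C_mul
  obtain ⟨hK, -, -, -⟩ := hE V W X.Γ X.G X.sl X.gp
  -- induction on syllables
  have ind : ∀ P : W → Prop, P 1 → (∀ v, ∀ g ∈ X.G v, g ≠ 1 → ∀ w, X.sl (g * w) = X.sl w + 1 →
      P w → P (g * w)) → ∀ w, P w := by
    intro P h0 hs
    have key : ∀ n : ℕ, ∀ w, X.sl w = n → P w := by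
      intro n
      induction n with
      | zero =>
        intro w hw
        by_cases h : w = 1
        · rw [h]; exact h0
        · obtain ⟨v, g, -, -, hg⟩ := X.gp.gen w h
          omega
      | succ n ih =>
        intro w hw
        by_cases h : w = 1
        · rw [h]; exact h0
        · obtain ⟨v, g, hg, hg1, hgw⟩ := X.gp.gen w h
          have h3 : g * (g⁻¹ * w) = w := mul_inv_cancel_left g w
          have h4 := hs v g hg hg1 (g⁻¹ * w) (by rw [h3]; exact hgw.symm) (ih _ (by omega))
          rwa [h3] at h4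
    exact fun w => key _ w rfl
  have A1 : ∀ v, ∀ g ∈ X.G v, X.C g = X.D.c g := by
    intro v g hg
    by_cases h : g = 1
    · rw [h, X.C_one, hcone]
    · exact hCg v g hg h
  have A3 : ∀ K, X.Clq K → X.C K.prod = (K.map X.D.c).prod := by
    intro K
    induction K with
    | nil => intro _; rw [List.prod_nil, X.C_one, List.map_nil, List.prod_nil]
    | cons k K ih =>
      intro hkK
      have hKK : X.Clq K := by
        refine ⟨fun l hl => hkK.1 l (List.mem_cons_of_mem _ hl), ?_⟩
        exact (List.pairwise_cons.1 hkK.2).2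
      have h3 := hK (k :: K) hkK
      have h4 := hK K hKK
      obtain ⟨hk1, v, hkv⟩ := hkK.1 k List.mem_cons_self
      have h5 : X.sl (k * K.prod) = X.sl k + X.sl K.prod := by
        rw [← List.prod_cons, h3, h4, X.gp.syl v k hkv hk1, List.length_cons]
        omega
      rw [List.prod_cons, hCm _ _ h5, A1 v k hkv, ih hKK, List.map_cons, List.prod_cons]
  have A4 : ∀ w, X.D.bar (X.C w) = X.C w := by
    refine ind _ ?_ ?_
    · rw [X.C_one, map_one]
    · intro v g hg hg1 w hw ih
      rw [X.C_mul v g hg hg1 w hw, map_mul, ih, X.D.bar_c]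
  -- products of short elements
  have hmul : ∀ (a b : ℕ) (S T : Set W), (∀ x ∈ S, ∀ y ∈ T, X.cs.length x + X.cs.length y < a + b) →
      ∀ Y ∈ Submodule.span ℤ[T;T⁻¹] (X.D.t '' S), ∀ Z ∈ Submodule.span ℤ[T;T⁻¹] (X.D.t '' T),
        Y * Z ∈ Submodule.span ℤ[T;T⁻¹] (X.D.t '' {y | X.cs.length y < a + b}) := by
    intro a b S T hST Y hY Z hZ
    have h3 := Submodule.mul_mem_mul hY hZ
    rw [Submodule.span_mul_span] at h3
    refine (Submodule.span_le.2 ?_) h3
    rintro _ ⟨_, ⟨x, hx, rfl⟩, _, ⟨y, hy, rfl⟩, rfl⟩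
    rw [SetLike.mem_coe, Module.Basis.mem_span_image]
    intro z hz
    exact lt_of_le_of_lt (hsupp x y z (Finsupp.mem_support_iff.1 hz)) (hST x hx y hy)
  have A56 : ∀ w, X.C w - X.D.t w ∈
      Submodule.span ℤ[T;T⁻¹] (X.D.t '' {y | X.cs.length y < X.cs.length w}) := by
    refine ind _ ?_ ?_
    · have h3 : X.D.t 1 = X.C 1 := by
        rw [X.C_one]
        exact (h1 I W H X.M X.cs X.L X.D.toHecke0).1
      rw [← h3, sub_self]
      exact zero_mem _
    · intro v g hg hg1 w hw ih
      have hlen : X.cs.length (g * w) = X.cs.length g + X.cs.length w := by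
        refine X.len g w ?_
        rw [hw, X.gp.syl v g hg hg1]
        omega
      have h3 := tri_sub_mem X.D.t X.cs.length (hc1 g) (hc2 g)
      have h4 : X.D.t g * X.D.t w = X.D.t (g * w) := X.D.mul g w hlen
      have h5 : X.C (g * w) - X.D.t (g * w) = X.D.t g * (X.C w - X.D.t w) +
          ((X.D.c g - X.D.t g) * X.D.t w + (X.D.c g - X.D.t g) * (X.C w - X.D.t w)) := by
        rw [X.C_mul v g hg hg1 w hw, ← h4]
        noncomm_ring
      rw [h5, hlen]
      have hg' : X.D.t g ∈ Submodule.span ℤ[T;T⁻¹] (X.D.t '' {g}) :=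
        Submodule.subset_span ⟨g, rfl, rfl⟩
      have hw' : X.D.t w ∈ Submodule.span ℤ[T;T⁻¹] (X.D.t '' {w}) :=
        Submodule.subset_span ⟨w, rfl, rfl⟩
      refine add_mem (hmul _ _ _ _ ?_ _ hg' _ ih) (add_mem (hmul _ _ _ _ ?_ _ h3 _ hw')
        (hmul _ _ _ _ ?_ _ h3 _ ih))
      · intro x hx y hy
        rw [Set.mem_singleton_iff] at hx
        rw [hx]
        exact Nat.add_lt_add_left hy _
      · intro x hx y hy
        rw [Set.mem_singleton_iff] at hy
        rw [hy]
        exact Nat.add_lt_add_right hx _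
      · intro x hx y hy
        exact Nat.add_lt_add hx hy
  have A5 : ∀ w, X.D.t.repr (X.C w) w = 1 := fun w =>
    (tri_of_sub_mem X.D.t X.cs.length (A56 w)).1
  have A6 : ∀ w y, X.D.t.repr (X.C w) y ≠ 0 → y = w ∨ X.cs.length y < X.cs.length w := fun w =>
    (tri_of_sub_mem X.D.t X.cs.length (A56 w)).2
  exact ⟨A1, hCm, A3, A4, A5, A6, tri_basis X.D.t X.cs.length X.C A5 A6⟩

end Pool.Agent.Helper99.RA
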